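import Pool.Agent.X23.L3.Stm

set_option autoImplicit false

namespace Pool.Agent.X170.L3

open Pool.Agent.X23.L3

theorem lp_not_both (f v : Fin 3 → ℝ) (h1 : X23.L3.lp f v) (h2 : X23.L3.lp f (-v)) : False := by
  unfold X23.L3.lp at h1 h2
  rw [dotProduct_neg] at h2
  simp only [Pi.neg_apply] at h2
  rcases h1 with h | ⟨h, h1⟩
  · rcases h2 with g | ⟨g, _⟩ <;> linarith
  · rcases h2 with g | ⟨g, h2⟩
    · linarith
    · rcases h1 with h1 | ⟨h1, h1'⟩
      · rcases h2 with g | ⟨g, _⟩ <;> linarith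
      · rcases h2 with g | ⟨g, h2⟩
        · linarith
        · rcases h1' with h1 | ⟨h1, h1''⟩
          · rcases h2 with g | ⟨g, _⟩ <;> linarith
          · rcases h2 with g | ⟨g, h2⟩
            · linarith
            · linarith

theorem t_EXTB : S_EXTB := by
  intro J _ c d hb hne f
  set P : Set (Fin 3 → ℝ) := {x | ∀ j, c j ⬝ᵥ x ≤ d j} with hP
  have hcd : ∀ w : Fin 3 → ℝ, Continuous (fun x : Fin 3 → ℝ => w ⬝ᵥ x) := by
    intro w
    unfold dotProduct
    fun_prop
  have hclosed : IsClosed P := by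
    have : P = ⋂ j, {x | c j ⬝ᵥ x ≤ d j} := by
      ext x; simp [hP]
    rw [this]
    exact isClosed_iInter (fun j => isClosed_le (hcd _) continuous_const)
  obtain ⟨C, hC⟩ := hb
  have hbdd : Bornology.IsBounded P := by
    rw [isBounded_iff_forall_norm_le]
    refine ⟨|C|, fun x hx => ?_⟩
    rw [pi_norm_le_iff_of_nonneg (abs_nonneg C)]
    intro k
    rw [Real.norm_eq_abs]
    exact (hC x hx k).trans (le_abs_self C)
  have hcomp : IsCompact P := Metric.isCompact_of_isClosed_isBounded hclosed hbdd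
  obtain ⟨q0, hq0P, hq0⟩ := hcomp.exists_isMaxOn (f := fun x => f ⬝ᵥ x) hne (hcd f).continuousOn
  have hc1 : IsCompact (P ∩ {x | f ⬝ᵥ x = f ⬝ᵥ q0}) :=
    hcomp.inter_right (isClosed_eq (hcd f) continuous_const)
  obtain ⟨q1, hq1P, hq1⟩ := hc1.exists_isMaxOn (f := fun x : Fin 3 → ℝ => x 0) ⟨q0, hq0P, rfl⟩
    (continuous_apply 0).continuousOn
  have hc2 : IsCompact (P ∩ {x | f ⬝ᵥ x = f ⬝ᵥ q0} ∩ {x | x 0 = q1 0}) :=
    hc1.inter_right (isClosed_eq (continuous_apply 0) continuous_const)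
  obtain ⟨q2, hq2P, hq2⟩ := hc2.exists_isMaxOn (f := fun x : Fin 3 → ℝ => x 1) ⟨q1, hq1P, rfl⟩
    (continuous_apply 1).continuousOn
  have hc3 : IsCompact (P ∩ {x | f ⬝ᵥ x = f ⬝ᵥ q0} ∩ {x | x 0 = q1 0} ∩ {x | x 1 = q2 1}) :=
    hc2.inter_right (isClosed_eq (continuous_apply 1) continuous_const)
  obtain ⟨q, hqP, hq⟩ := hc3.exists_isMaxOn (f := fun x : Fin 3 → ℝ => x 2) ⟨q2, hq2P, rfl⟩
    (continuous_apply 2).continuousOn
  obtain ⟨⟨⟨hqP0, hqf⟩, hqa⟩, hqb⟩ := hqP
  have hqf' : f ⬝ᵥ q = f ⬝ᵥ q0 := hqf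
  have hqa' : q 0 = q1 0 := hqa
  have hqb' : q 1 = q2 1 := hqb
  have hlex : ∀ x, (∀ j, c j ⬝ᵥ x ≤ d j) → x ≠ q → X23.L3.lp f (q - x) := by
    intro x hx hne'
    unfold X23.L3.lp
    rw [dotProduct_sub]
    simp only [Pi.sub_apply]
    have h0 : f ⬝ᵥ x ≤ f ⬝ᵥ q0 := hq0 hx
    rcases h0.lt_or_eq with h0 | h0
    · left; linarith
    · right
      refine ⟨by linarith, ?_⟩
      have h1 : x 0 ≤ q1 0 := hq1 ⟨hx, h0⟩
      rcases h1.lt_or_eq with h1 | h1
      · left; linarith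
      · right
        refine ⟨by linarith, ?_⟩
        have h2 : x 1 ≤ q2 1 := hq2 ⟨⟨hx, h0⟩, h1⟩
        rcases h2.lt_or_eq with h2 | h2
        · left; linarith
        · right
          refine ⟨by linarith, ?_⟩
          have h3 : x 2 ≤ q 2 := hq ⟨⟨⟨hx, h0⟩, h1⟩, h2⟩
          rcases h3.lt_or_eq with h3 | h3
          · linarith
          · exfalso
            apply hne'
            funext k
            fin_cases k
            · simp only [Fin.zero_eta]; linarith
            · simp only [Fin.mk_one]; linarith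
            · exact h3
  refine ⟨q, hqP0, hlex, ?_⟩
  intro v hv
  by_contra hv0
  have key : ∀ w : Fin 3 → ℝ, (∀ j, c j ⬝ᵥ q = d j → c j ⬝ᵥ w = 0) →
      ∀ᶠ t : ℝ in nhdsWithin 0 (Set.Ioi 0), ∀ j, c j ⬝ᵥ (q + t • w) ≤ d j := by
    intro w hw
    rw [Filter.eventually_all]
    intro j
    by_cases hj : c j ⬝ᵥ q = d j
    · refine Filter.Eventually.of_forall (fun t => ?_)
      rw [dotProduct_add, dotProduct_smul, hw j hj, hj]
      simp
    · have hlt : c j ⬝ᵥ q < d j := lt_of_le_of_ne (hqP0 j) hj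
      have hcont : Continuous (fun t : ℝ => c j ⬝ᵥ (q + t • w)) := by
        have : Continuous (fun t : ℝ => q + t • w) := by fun_prop
        exact (hcd (c j)).comp this
      have hat : Filter.Tendsto (fun t : ℝ => c j ⬝ᵥ (q + t • w)) (nhds 0)
          (nhds (c j ⬝ᵥ q)) := by
        have := hcont.tendsto 0
        simpa using this
      have hev := hat.eventually (gt_mem_nhds hlt)
      exact (hev.filter_mono nhdsWithin_le_nhds).mono (fun t ht => le_of_lt ht)
  have h1 := key v hv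
  have h2 := key (-v) (fun j hj => by rw [dotProduct_neg, hv j hj, neg_zero])
  have h3 : ∀ᶠ t : ℝ in nhdsWithin 0 (Set.Ioi 0), 0 < t := self_mem_nhdsWithin
  obtain ⟨t, ⟨ht1, ht2⟩, ht⟩ := ((h1.and h2).and h3).exists
  have htv : t • v ≠ 0 := smul_ne_zero ht.ne' hv0
  have e1 := hlex _ ht1 (by
    intro h; apply htv
    have : q + t • v = q + 0 := by rw [h, add_zero]
    exact add_left_cancel this)
  have e2 := hlex _ ht2 (by
    intro h; apply htv
    have : q + t • (-v) = q + 0 := by rw [h, add_zero]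
    have h5 := add_left_cancel this
    rw [smul_neg, neg_eq_zero] at h5
    exact h5)
  have f1 : q - (q + t • v) = -(t • v) := by abel
  have f2 : q - (q + t • (-v)) = t • v := by rw [smul_neg]; abel
  rw [f1] at e1
  rw [f2] at e2
  exact lp_not_both f _ e2 e1

theorem t_EXTA : S_EXTA := by
  intro J _ c d hb hne g
  obtain ⟨q, h1, h2, h3⟩ := t_EXTB J c d hb hne g
  refine ⟨q, h1, ?_, h3⟩
  intro x hx
  by_cases hxq : x = q
  · rw [hxq]
  · have := h2 x hx hxq
    unfold X23.L3.lp at this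
    rw [dotProduct_sub] at this
    rcases this with h | ⟨h, _⟩ <;> linarith

end Pool.Agent.X170.L3
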